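import Pool.Agent.X32.GN.Fin
import Pool.Agent.X328.TAU.Stm

/-!
# Project TAU, part RIG: infinitesimal rigidity of `X ^ d` with the cycles of length one and two and the
multiplier of infinity (adapted from `Pool.Agent.X32.GN.Fin`)
-/

set_option autoImplicit false

namespace Pool.Agent.X17.TAU

open Finset Polynomial
open Pool.Agent.X328.GN (Ix nu de hm it wrA S_IT)
open Pool.Agent.X328.FP (vl)
open Pool.Agent.X328.TAU
open Pool.Agent.X32.GN
open scoped Differential

noncomputable section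

universe u

section maps

variable {A A' : Type*} [CommRing A] [CommRing A'] (φ : A →+* A')

lemma P2_map (d : ℕ) (t : Ix d → A) : (P2 d t).map φ = P2 d (fun i => φ (t i)) := by
  rw [P2, (it_map φ d _ _ 2).1, nu_map, de_map, P2]

lemma Q2_map (d : ℕ) (t : Ix d → A) : (Q2 d t).map φ = Q2 d (fun i => φ (t i)) := by
  rw [Q2, (it_map φ d _ _ 2).2, nu_map, de_map, Q2]

lemma Ph2_map (d : ℕ) (t : Ix d → A) : (Ph2 d t).map φ = Ph2 d (fun i => φ (t i)) := by
  simp [Ph2, P2_map, Q2_map]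

lemma P2_zero (d : ℕ) : P2 d (fun _ => (0 : A)) = X ^ (d ^ 2) := by
  simp [P2, nu_zero, de_zero, it_zero]

lemma Q2_zero (d : ℕ) : Q2 d (fun _ => (0 : A)) = 1 := by
  simp [Q2, nu_zero, de_zero, it_zero]

lemma Ph2_zero (d : ℕ) : Ph2 d (fun _ => (0 : A)) = X ^ (d ^ 2) - X := by
  simp [Ph2, P2_zero, Q2_zero]

end maps

section roots

variable {E : Type u} [Field E] {O : ValuationSubring E} {d : ℕ} {t : Ix d → E}

lemma RP_Q2 (ht : ∀ i, Rd O (t i) 0) : RP O (Q2 d t) 1 := by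
  obtain ⟨s, h1, h2⟩ := lift_t ht
  exact ⟨Q2 d s, by rw [Q2_map, h1], by rw [Q2_map, h2, Q2_zero]⟩

lemma Ph2_deg (IT : S_IT.{u}) (hd : 2 ≤ d) (ht : ∀ i, Rd O (t i) 0) :
    (Ph2 d t).natDegree ≤ d ^ 2 := by
  obtain ⟨hm, hn⟩ := nu_monic d hd t
  obtain ⟨_, _, h3, h4, _, _⟩ := IT E d hd (nu d t) (de d t) (copr hd ht) hm hn (de_deg d hd t) 2
  unfold Ph2 P2 Q2
  refine (natDegree_sub_le _ _).trans (max_le h3.le ?_)
  refine natDegree_mul_le.trans ?_
  rw [natDegree_X]
  omega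

/-- the polynomial `X ^ (d ^ 2) - X` over the residue field splits and its roots come from the roots of
`Ph2` -/
lemma roots_red2 (IT : S_IT.{u}) (hd : 2 ≤ d) (ht : ∀ i, Rd O (t i) 0) (hs : (Ph2 d t).Splits) :
    (X ^ (d ^ 2) - X : (IsLocalRing.ResidueField O)[X]).Splits ∧
    ∀ ζ : IsLocalRing.ResidueField O, ζ ^ (d ^ 2) = ζ →
      ∃ x : E, (Ph2 d t).eval x = 0 ∧ Rd O x ζ := by
  obtain ⟨s, h1, h2⟩ := lift_t ht
  set P := Ph2 d s with hP
  have hPE : P.map (algebraMap O E) = Ph2 d t := by rw [hP, Ph2_map, h1]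
  have hPF : P.map (IsLocalRing.residue O) = X ^ (d ^ 2) - X := by rw [hP, Ph2_map, h2, Ph2_zero]
  have hinj : Function.Injective (algebraMap O E) := Subtype.coe_injective
  have hdeg : P.natDegree ≤ d ^ 2 := by
    rw [← natDegree_map_eq_of_injective hinj, hPE]
    exact Ph2_deg IT hd ht
  have hd3 : 1 < d ^ 2 := Nat.one_lt_pow (by norm_num) (by omega)
  have hc : IsLocalRing.residue O (P.coeff (d ^ 2)) = 1 := by
    rw [← coeff_map, hPF]
    simp [coeff_X, hd3.ne]
  have hu : IsUnit (P.coeff (d ^ 2)) :=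
    (IsLocalRing.residue_ne_zero_iff_isUnit _).1 (by rw [hc]; exact one_ne_zero)
  obtain ⟨c, hcu⟩ := hu
  have hdeg2 : P.natDegree = d ^ 2 := by
    refine le_antisymm hdeg (le_natDegree_of_ne_zero ?_)
    rw [← hcu]
    exact c.ne_zero
  set M : O[X] := C ((c⁻¹ : Oˣ) : O) * P with hM
  have hMm : M.Monic := by
    have h3 : P.leadingCoeff = c := by rw [leadingCoeff, hdeg2, hcu]
    have h4 := leadingCoeff_C_mul_of_isUnit (c⁻¹).isUnit P
    rw [Monic, hM, h4, h3]
    simp
  have hcr : IsLocalRing.residue O ((c⁻¹ : Oˣ) : O) = 1 := by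
    have h3 : IsLocalRing.residue O (c : O) = 1 := by rw [hcu, hc]
    have h4 : IsLocalRing.residue O ((c⁻¹ : Oˣ) : O) * IsLocalRing.residue O (c : O) = 1 := by
      rw [← map_mul, c.inv_mul, map_one]
    rwa [h3, mul_one] at h4
  have hMF : M.map (IsLocalRing.residue O) = X ^ (d ^ 2) - X := by
    rw [hM, Polynomial.map_mul, hPF, map_C, hcr, C_1, one_mul]
  have hME : M.map (algebraMap O E) = C (algebraMap O E ((c⁻¹ : Oˣ) : O)) * Ph2 d t := by
    rw [hM, Polynomial.map_mul, hPE, map_C]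
  have hMs : (M.map (algebraMap O E)).Splits := by
    rw [hME]
    exact (Splits.C _).mul hs
  have hMm' : (M.map (algebraMap O E)).Monic := hMm.map _
  have e1 := hMs.eq_prod_roots_of_monic hMm'
  obtain ⟨T, hT⟩ := lift_ms (O := O) (M.map (algebraMap O E)).roots (by
    intro x hx
    refine IsIntegrallyClosed.isIntegral_iff.1 ⟨M, hMm, ?_⟩
    rw [eval₂_eq_eval_map]
    exact (mem_roots'.1 hx).2)
  have e2 : M = (T.map fun a => X - C a).prod := by
    refine map_injective _ hinj ?_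
    rw [e1, ← hT, Polynomial.map_multiset_prod, Multiset.map_map, Multiset.map_map]
    congr 1
    refine Multiset.map_congr rfl fun a _ => ?_
    simp
  have e3 : (X ^ (d ^ 2) - X : (IsLocalRing.ResidueField O)[X]) =
      (T.map fun a => X - C (IsLocalRing.residue O a)).prod := by
    rw [← hMF, e2, Polynomial.map_multiset_prod, Multiset.map_map]
    congr 1
    refine Multiset.map_congr rfl fun a _ => ?_
    simp
  refine ⟨?_, fun ζ hζ => ?_⟩
  · rw [e3]
    refine Splits.multisetProd fun f hf => ?_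
    obtain ⟨a, _, rfl⟩ := Multiset.mem_map.1 hf
    exact Splits.X_sub_C _
  · have h5 : (X ^ (d ^ 2) - X : (IsLocalRing.ResidueField O)[X]).eval ζ = 0 := by
      simp [hζ]
    rw [e3, eval_multiset_prod, Multiset.prod_eq_zero_iff, Multiset.map_map,
      Multiset.mem_map] at h5
    obtain ⟨a, ha, h6⟩ := h5
    simp only [Function.comp_apply, eval_sub, eval_X, eval_C, sub_eq_zero] at h6
    refine ⟨algebraMap O E a, ?_, a, rfl, h6.symm⟩
    have h7 : algebraMap O E a ∈ (M.map (algebraMap O E)).roots := by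
      rw [← hT]
      exact Multiset.mem_map_of_mem _ ha
    have h8 := (mem_roots'.1 h7).2
    rw [hME, IsRoot.def, eval_mul, eval_C] at h8
    refine (mul_eq_zero.1 h8).resolve_left ?_
    intro h9
    exact (c⁻¹).ne_zero (hinj (by rw [h9, map_zero]))

end roots

section main

variable {E : Type u} [Field E] [Differential E] {O : ValuationSubring E} {d : ℕ} {t : Ix d → E}
  {α : Ix d → IsLocalRing.ResidueField O}

lemma rig_sum2 [CharZero E] (IT : S_IT.{u}) (hd : 2 ≤ d) [CharZero (IsLocalRing.ResidueField O)]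
    (ht : ∀ i, Rd O (t i) 0) (hα : ∀ i, Rd O (t i)′ (α i)) (x : E)
    (ζ : IsLocalRing.ResidueField O) (hx : (Ph2 d t).eval x = 0) (hxζ : Rd O x ζ)
    (hζ : ζ ^ (d ^ 2) = ζ) (hζ0 : ζ ≠ 0) (hml : (ml2 d t x)′ = 0) :
    tm d α ζ + tm d α (ζ ^ d) = 0 := by
  have hd0 : (d : IsLocalRing.ResidueField O) ≠ 0 := by
    have : d ≠ 0 := by omega
    exact_mod_cast this
  obtain ⟨hm, hn⟩ := nu_monic d hd t
  obtain ⟨_, _, _, _, _, h6⟩ := IT E d hd (nu d t) (de d t) (copr hd ht) hm hn (de_deg d hd t) 2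
  have hq : (Q2 d t).eval x ≠ 0 := ((RP_Q2 ht).eval hxζ).ne_zero (by simp)
  obtain ⟨_, h8, h9⟩ := h6 x hq
  have h10 : (P2 d t).eval x = x * (Q2 d t).eval x := by
    have := hx
    rw [Ph2, eval_sub, eval_mul, eval_X, sub_eq_zero] at this
    exact this
  have h11 : vl (nu d t) (de d t) (vl (nu d t) (de d t) x) = x := by
    have e : (vl (nu d t) (de d t))^[2] x = x := by
      rw [← h8]
      change (P2 d t).eval x / (Q2 d t).eval x = x
      rw [h10]
      field_simp
    exact e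
  have h12 : ml2 d t x = ∏ m ∈ range 2,
      (wrA (nu d t) (de d t)).eval ((vl (nu d t) (de d t))^[m] x) /
        (de d t).eval ((vl (nu d t) (de d t))^[m] x) ^ 2 := h9
  rw [prod_range_succ, prod_range_succ, prod_range_zero, one_mul] at h12
  simp only [Function.iterate_zero, id_eq, Function.iterate_succ, Function.comp_apply] at h12
  set f := vl (nu d t) (de d t) with hf
  set x1 := f x with hx1
  set z1 := ζ ^ d with hz1
  have r0 := hxζ
  have r1 : Rd O x1 z1 := Rd_vl ht r0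
  have hz10 : z1 ≠ 0 := pow_ne_zero _ hζ0
  have pw : ∀ z : IsLocalRing.ResidueField O, z ^ d = z ^ (d - 1) * z := fun z => by
    rw [← pow_succ]
    congr 1
    omega
  have pw2 : ∀ z : IsLocalRing.ResidueField O, z ^ (d - 2) * z = z ^ (d - 1) := fun z => by
    rw [← pow_succ]
    congr 1
    omega
  have ez0 : z1 ^ d = ζ := by
    rw [hz1, ← pow_mul, show d * d = d ^ 2 by ring, hζ]
  have ez1 : z1 = ζ ^ (d - 1) * ζ := by rw [hz1, pw]
  have ez2 : ζ = z1 ^ (d - 1) * z1 := by rw [← pw, ez0]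
  -- the multipliers
  set L : E → E := fun z => (wrA (nu d t) (de d t)).eval z / (de d t).eval z ^ 2 with hL
  set G : E → E := fun z => ((Differential.mapCoeffs (nu d t)).eval z * (de d t).eval z -
      (nu d t).eval z * (Differential.mapCoeffs (de d t)).eval z) / (de d t).eval z ^ 2 with hG
  have l0 : Rd O (L x) (d * ζ ^ (d - 1)) := Rd_L ht r0
  have l1 : Rd O (L x1) (d * z1 ^ (d - 1)) := Rd_L ht r1
  have g0 := Rd_G hd ht hα r0
  have g1 := Rd_G hd ht hα r1
  have w0 : (de d t).eval x ≠ 0 := ((RP_de ht).eval r0).ne_zero (by simp)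
  have w1 : (de d t).eval x1 ≠ 0 := ((RP_de ht).eval r1).ne_zero (by simp)
  have d1 : x1′ = G x + L x * x′ := dvl _ _ x w0
  have d2 : x′ = G x1 + L x1 * x1′ := by
    have := dvl (nu d t) (de d t) x1 w1
    rw [← hf, h11] at this
    exact this
  have hppp : z1 ^ (d - 1) * ζ ^ (d - 1) = 1 := by
    have : z1 ^ (d - 1) * ζ ^ (d - 1) * ζ = ζ := by
      calc z1 ^ (d - 1) * ζ ^ (d - 1) * ζ
          = z1 ^ (d - 1) * (ζ ^ (d - 1) * ζ) := by ring
        _ = ζ := by rw [← ez1, ← ez2]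
    exact mul_right_cancel₀ hζ0 (by rw [this, one_mul])
  have u0 : (1 : IsLocalRing.ResidueField O) -
      (d * z1 ^ (d - 1)) * (d * ζ ^ (d - 1)) ≠ 0 := by
    have e : (1 : IsLocalRing.ResidueField O) -
      (d * z1 ^ (d - 1)) * (d * ζ ^ (d - 1)) =
      1 - (d : IsLocalRing.ResidueField O) ^ 2 *
        (z1 ^ (d - 1) * ζ ^ (d - 1)) := by ring
    rw [e, hppp, mul_one, sub_ne_zero]
    intro h
    have h' : (1 : ℕ) = d ^ 2 := by exact_mod_cast h
    have : 1 < d ^ 2 := Nat.one_lt_pow (by norm_num) (by omega)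
    omega
  have U := Rd.one.sub (l1.mul l0)
  have hU0 := U.ne_zero u0
  have ex : x′ = (G x1 + L x1 * G x) / (1 - L x1 * L x) := by
    rw [eq_div_iff hU0]
    linear_combination d2 + L x1 * d1
  obtain ⟨h0, H0⟩ : ∃ h, Rd O x′ h :=
    ⟨_, by rw [ex]; exact (g1.add (l1.mul g0)).div U u0⟩
  obtain ⟨h1, H1, e1⟩ : ∃ h, Rd O x1′ h ∧ h = ((NN d α).eval ζ -
      ζ ^ (d - 1) * ζ * (VV d α).eval ζ) + d * ζ ^ (d - 1) * h0 :=
    ⟨_, by rw [d1]; exact g0.add (l0.mul H0), rfl⟩
  have e2 : h0 = ((NN d α).eval z1 -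
      z1 ^ (d - 1) * z1 * (VV d α).eval z1) + d * z1 ^ (d - 1) * h1 := by
    refine H0.unique ?_
    rw [d2]
    exact g1.add (l1.mul H1)
  have p0 : ζ ^ (d - 1) ≠ 0 := pow_ne_zero _ hζ0
  have p1 : z1 ^ (d - 1) ≠ 0 := pow_ne_zero _ hz10
  have L0 : L x ≠ 0 := l0.ne_zero (mul_ne_zero hd0 p0)
  have L1 : L x1 ≠ 0 := l1.ne_zero (mul_ne_zero hd0 p1)
  -- the logarithmic derivative of the multiplier
  have hld : Differential.logDeriv (L x) + Differential.logDeriv (L x1) = 0 := by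
    rw [← Differential.logDeriv_mul _ _ L0 L1, Differential.logDeriv_eq_zero]
    rw [← h12]
    exact hml
  have S := (Rd_ld hd hd0 ht hα r0 H0 hζ0).add (Rd_ld hd hd0 ht hα r1 H1 hz10)
  have S0 := S.unique (by
    have := Rd.zero (O := O)
    rw [← hld] at this
    exact this)
  have q0 := one2 (A := (derivative (NN d α)).eval ζ) (V := (VV d α).eval ζ)
    (W := (derivative (VV d α)).eval ζ) (h := h0) hd0 hζ0 p0 (pw2 ζ)
  have q1 := one2 (A := (derivative (NN d α)).eval z1) (V := (VV d α).eval z1)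
    (W := (derivative (VV d α)).eval z1) (h := h1) hd0 hz10 p1 (pw2 z1)
  have s0 := one1 hζ0 p0 ez1 e1
  have s1 := one1 hz10 p1 ez2 e2
  unfold tm
  linear_combination (d : IsLocalRing.ResidueField O) * S0 - q0 - q1 +
    (d : IsLocalRing.ResidueField O) * (s0 + s1)

end main

/-- **RIG** from IT and DIG -/
theorem t_RIG (IT : S_IT.{u}) (DIG : Pool.Agent.X328.TAU.S_DIG.{u}) :
    Pool.Agent.X328.TAU.S_RIG.{u} := by
  intro E _ _ O d hd t hN ht hs δ hla hδ
  by_contra hcon
  push Not at hcon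
  obtain ⟨i1, hi1⟩ := hcon
  have hne : (Finset.univ : Finset (Ix d)).Nonempty := ⟨i1, Finset.mem_univ _⟩
  obtain ⟨i0, _, hi0⟩ := Finset.exists_max_image Finset.univ
    (fun i => O.valuation (δ (t i))) hne
  have h0 : δ (t i0) ≠ 0 := by
    intro h
    have := hi0 i1 (Finset.mem_univ _)
    rw [h, map_zero, le_zero_iff, map_eq_zero] at this
    exact hi1 this
  let _ : Differential E := ⟨(δ (t i0))⁻¹ • δ⟩
  have hD : ∀ x : E, x′ = (δ (t i0))⁻¹ * δ x := fun x => rfl
  have hmem : ∀ i, (t i)′ ∈ O := by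
    intro i
    rw [← O.valuation_le_one_iff, hD, map_mul, map_inv₀]
    have h1 := hi0 i (Finset.mem_univ _)
    have h2 : O.valuation (δ (t i0)) ≠ 0 := by simpa using h0
    calc (O.valuation (δ (t i0)))⁻¹ * O.valuation (δ (t i))
        ≤ (O.valuation (δ (t i0)))⁻¹ * O.valuation (δ (t i0)) := by gcongr
      _ = 1 := inv_mul_cancel₀ h2
  have ht' : ∀ i, Rd O (t i) 0 := by
    intro i
    have h1 : t i ∈ O := (O.valuation_le_one_iff _).1 (ht i).le
    refine ⟨⟨t i, h1⟩, rfl, ?_⟩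
    rw [IsLocalRing.residue_eq_zero_iff]
    exact (O.valuation_lt_one_iff ⟨t i, h1⟩).2 (ht i)
  set α : Ix d → IsLocalRing.ResidueField O := fun i =>
    IsLocalRing.residue O ⟨(t i)′, hmem i⟩ with hαdef
  have hα : ∀ i, Rd O (t i)′ (α i) := fun i => ⟨⟨(t i)′, hmem i⟩, rfl, rfl⟩
  have : CharZero (IsLocalRing.ResidueField O) := by
    refine charZero_of_inj_zero fun n hn => ?_
    by_contra h
    have h1 : (n : O) * ⟨(n : E)⁻¹, hN n h⟩ = 1 := by
      refine Subtype.ext ?_
      have h2 : (n : E) ≠ 0 := by exact_mod_cast h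
      change ((n : O) : E) * (n : E)⁻¹ = 1
      rw [show ((n : O) : E) = (n : E) by simp, mul_inv_cancel₀ h2]
    have h3 := congrArg (IsLocalRing.residue O) h1
    rw [map_mul, map_natCast, hn, zero_mul, map_one] at h3
    exact zero_ne_one h3
  obtain ⟨hsp, hroot⟩ := roots_red2 IT hd ht' hs
  have hd3 : 1 < d ^ 2 := Nat.one_lt_pow (by norm_num) (by omega)
  have key := DIG (IsLocalRing.ResidueField O) d hd hsp
    (fun j => -(((j.1 : IsLocalRing.ResidueField O) + 1) * α (Sum.inr j)))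
    (fun j => -(((j.1 : IsLocalRing.ResidueField O) + 1) * α (Sum.inl (Fin.rev j)))) (by
    intro ζ hζ
    have hζ0 : ζ ≠ 0 := by
      rintro rfl
      rw [zero_pow (by omega)] at hζ
      exact zero_ne_one hζ
    have hζ' : ζ ^ d ^ 2 = ζ := by
      calc ζ ^ d ^ 2 = ζ ^ (d ^ 2 - 1) * ζ := by
            rw [← pow_succ]
            congr 1
            omega
        _ = ζ := by rw [hζ, one_mul]
    obtain ⟨x, hx, hxζ⟩ := hroot ζ hζ'
    have hml : (ml2 d t x)′ = 0 := by
      rw [hD, hδ x hx, mul_zero]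
    have := rig_sum2 IT hd ht' hα x ζ hx hxζ hζ' hζ0 hml
    rw [tm_eq d α ζ hζ0, tm_eq d α _ (pow_ne_zero _ hζ0)] at this
    rw [sum_range_succ, sum_range_succ, sum_range_zero, zero_add]
    have e0 : ζ ^ d ^ 0 = ζ := by simp
    have e1 : ζ ^ d ^ 1 = ζ ^ d := by simp
    rw [e0, e1]
    exact this)
  have hla' : ∀ j : Fin (d - 1), j.1 + 2 = d → α (Sum.inr j) = 0 := by
    intro j hj
    have e : j = ⟨d - 2, by omega⟩ := Fin.ext (by simp only; omega)
    refine (hα (Sum.inr j)).unique ?_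
    rw [hD]
    have : δ (t (Sum.inr j)) = 0 := by
      rw [e]
      exact hla
    rw [this, mul_zero]
    exact Rd.zero
  have hz : ∀ i, α i = 0 := by
    have hj : ∀ j : ℕ, ((j : IsLocalRing.ResidueField O) + 1) ≠ 0 := fun j => by
      exact_mod_cast Nat.succ_ne_zero j
    intro i
    rcases i with j | j
    · rcases key (Fin.rev j) with ⟨_, h⟩ | ⟨h1, h2⟩
      · simp only [Fin.rev_rev, neg_eq_zero] at h
        exact (mul_eq_zero.1 h).resolve_left (hj _)
      · have h3 := hla' _ h1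
        simp only [h3, mul_zero, neg_zero, zero_add, Fin.rev_rev, neg_eq_zero] at h2
        exact (mul_eq_zero.1 h2).resolve_left (hj _)
    · rcases key j with ⟨h, _⟩ | ⟨h1, _⟩
      · simp only [neg_eq_zero] at h
        exact (mul_eq_zero.1 h).resolve_left (hj _)
      · exact hla' _ h1
  have h1 : α i0 = 1 := by
    refine (hα i0).unique ?_
    rw [hD, inv_mul_cancel₀ h0]
    exact Rd.one
  rw [hz i0] at h1
  exact zero_ne_one h1

end

end Pool.Agent.X17.TAU
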